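import Mathlib

/-!
# The twisted conjugacy ratio depends on the generating set

`G` is the free group on `a, b` and `φ` is the endomorphism `a ↦ a ^ 8`, `b ↦ b ^ 8`. For
`X = {a, b}` the `φ`-twisted conjugacy ratio is at least `7 / 8`: elements whose reduced words do not
end in the fourth power of a letter are pairwise not `φ`-conjugate. For `Y = {a, b, a ^ 8}` it is at
most `6 / 7`: the element `u a ^ 8` is `φ`-conjugate to `a u`.
-/

set_option autoImplicit false

open Filter

namespace Pool.Agent.Results.MP_91bf1e_al.RatioDepends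

section defs

variable {G : Type} [Group G]

/-- The ball of radius `n`: products of at most `n` elements of `X ∪ X⁻¹`. -/
def ball (X : Set G) (n : ℕ) : Set G :=
  {g | ∃ l : List G, l.length ≤ n ∧ (∀ x ∈ l, x ∈ X ∨ x⁻¹ ∈ X) ∧ l.prod = g}

/-- The `φ`-conjugacy class of `y`: all elements `z y φ(z)⁻¹`. -/
def twistedClass (φ : G →* G) (y : G) : Set G := {x | ∃ z, x = z * y * (φ z)⁻¹}

/-- The `φ`-conjugacy classes that meet the ball of radius `n`. -/
def classes (φ : G →* G) (X : Set G) (n : ℕ) : Set (Set G) := twistedClass φ '' ball X n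

/-- The `φ`-twisted conjugacy ratio of `G` with respect to `X`. -/
noncomputable def tcr (X : Set G) (φ : G →* G) : ℝ :=
  limsup (fun n : ℕ => ((classes φ X n).ncard : ℝ) / ((ball X n).ncard : ℝ)) atTop

end defs

/-- The free group of rank two. -/
abbrev F := FreeGroup (Fin 2)

/-- The endomorphism sending each generator to its eighth power. -/
def phi : F →* F := FreeGroup.lift fun i => FreeGroup.of i ^ 8

/-- The basis. -/
def X : Set F := {FreeGroup.of 0, FreeGroup.of 1}

/-- The basis together with the eighth power of the first generator. -/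
def Y : Set F := {FreeGroup.of 0, FreeGroup.of 1, FreeGroup.of 0 ^ 8}

/-! ### words -/

abbrev Letter := Fin 2 × Bool

lemma norm_mk_of {L : List Letter} (h : FreeGroup.IsReduced L) : (FreeGroup.mk L : F).norm = L.length := by
  rw [FreeGroup.norm, FreeGroup.toWord_mk, h.reduce_eq]

lemma toWord_mk_of {L : List Letter} (h : FreeGroup.IsReduced L) : (FreeGroup.mk L : F).toWord = L := by
  rw [FreeGroup.toWord_mk, h.reduce_eq]

/-- The word with every letter repeated eight times. -/
def rep (L : List Letter) : List Letter := L.flatMap fun p => List.replicate 8 p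

lemma phi_mk (L : List Letter) : phi (FreeGroup.mk L) = FreeGroup.mk (rep L) := by
  induction L with
  | nil => simp [rep, ← FreeGroup.one_eq_mk]
  | cons p L ih =>
    have h1 : (FreeGroup.mk (p :: L) : F) = FreeGroup.mk [p] * FreeGroup.mk L := by
      rw [FreeGroup.mul_mk]; rfl
    rw [h1, map_mul, ih]
    have h2 : rep (p :: L) = List.replicate 8 p ++ rep L := by simp [rep]
    rw [h2, ← FreeGroup.mul_mk]
    congr 1
    obtain ⟨i, b⟩ := p
    cases b
    · have : (FreeGroup.mk [(i, false)] : F) = (FreeGroup.of i)⁻¹ := by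
        simp [FreeGroup.of, FreeGroup.invRev]
      rw [this, map_inv, phi, FreeGroup.lift_apply_of]
      simp [FreeGroup.of, FreeGroup.invRev, pow_succ, List.replicate]
    · have : (FreeGroup.mk [(i, true)] : F) = (FreeGroup.of i) := rfl
      rw [this, phi, FreeGroup.lift_apply_of]
      simp [FreeGroup.of, pow_succ, List.replicate]

/-- Compatibility of adjacent letters in a reduced word. -/
abbrev ok (p q : Letter) : Prop := p.1 = q.1 → p.2 = q.2

lemma isChain_replicate_append (p : Letter) (n : ℕ) (L : List Letter)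
    (h : FreeGroup.IsReduced (p :: L)) : FreeGroup.IsReduced (List.replicate (n + 1) p ++ L) := by
  induction n with
  | zero => simpa using h
  | succ n ih =>
    rw [List.replicate_succ, List.cons_append]
    unfold FreeGroup.IsReduced at *
    rw [List.replicate_succ, List.cons_append] at *
    rw [List.isChain_cons_cons]
    exact ⟨fun _ => rfl, ih⟩

lemma rep_head (p : Letter) (L : List Letter) : ∃ L', rep (p :: L) = p :: L' := by
  exact ⟨List.replicate 7 p ++ rep L, by simp [rep, List.replicate]⟩

lemma isReduced_rep {L : List Letter} (h : FreeGroup.IsReduced L) : FreeGroup.IsReduced (rep L) := by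
  induction L with
  | nil => simp [rep, FreeGroup.IsReduced]
  | cons p L ih =>
    have h2 : rep (p :: L) = List.replicate (7 + 1) p ++ rep L := by simp [rep]
    rw [h2]
    apply isChain_replicate_append
    cases L with
    | nil => simp [rep, FreeGroup.IsReduced]
    | cons q L =>
      unfold FreeGroup.IsReduced at *
      rw [List.isChain_cons_cons] at h
      obtain ⟨L', hL'⟩ := rep_head q L
      have := ih h.2
      rw [hL'] at this ⊢
      rw [List.isChain_cons_cons]
      exact ⟨h.1, this⟩

lemma length_rep (L : List Letter) : (rep L).length = 8 * L.length := by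
  induction L with
  | nil => simp [rep]
  | cons p L ih =>
    have h2 : rep (p :: L) = List.replicate 8 p ++ rep L := by simp [rep]
    rw [h2, List.length_append, ih, List.length_replicate, List.length_cons]
    ring

lemma split_end (q : Letter) (W : List Letter) :
    ∃ (W' : List Letter) (c : ℕ), W = W' ++ List.replicate c q ∧ W'.getLast? ≠ some q := by
  induction W using List.reverseRecOn with
  | nil => exact ⟨[], 0, by simp, by simp⟩
  | append_singleton W p ih =>
    by_cases h : p = q
    · obtain ⟨W', c, h1, h2⟩ := ih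
      refine ⟨W', c + 1, ?_, h2⟩
      rw [h1, h, List.append_assoc, List.replicate_succ']
    · exact ⟨W ++ [p], 0, by simp, by simp [h]⟩

/-- The element does not end in the fourth power of a letter. -/
def Good (x : F) : Prop := ∀ q : Letter, ¬ List.replicate 4 q <:+ x.toWord

lemma norm_mul_phi {x z : F} (hx : Good x) (hz : z ≠ 1) :
    x.norm + 8 * z.norm ≤ (x * phi z).norm + 6 := by
  obtain ⟨p, Z, hZ⟩ : ∃ p Z, z.toWord = p :: Z := by
    cases h : z.toWord with
    | nil => exact absurd (FreeGroup.toWord_eq_nil_iff.1 h) hz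
    | cons p Z => exact ⟨p, Z, rfl⟩
  obtain ⟨W', c, hW, hlast⟩ := split_end (p.1, !p.2) x.toWord
  have hc : c ≤ 3 := by
    by_contra hc
    apply hx (p.1, !p.2)
    rw [hW]
    refine ⟨W' ++ List.replicate (c - 4) (p.1, !p.2), ?_⟩
    rw [List.append_assoc, List.replicate_append_replicate, Nat.sub_add_cancel (by omega)]
  have hz1 : phi z = FreeGroup.mk (List.replicate 8 p ++ rep Z) := by
    conv_lhs => rw [← FreeGroup.mk_toWord (x := z), hZ, phi_mk]
    rfl
  have hredx : FreeGroup.IsReduced x.toWord := FreeGroup.isReduced_toWord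
  have hredz : FreeGroup.IsReduced (p :: Z) := hZ ▸ FreeGroup.isReduced_toWord
  have hx1 : x * phi z = FreeGroup.mk (W' ++ (List.replicate (8 - c) p ++ rep Z)) := by
    conv_lhs => rw [← FreeGroup.mk_toWord (x := x), hW, hz1]
    have h8 : List.replicate 8 p = List.replicate c p ++ List.replicate (8 - c) p := by
      rw [List.replicate_append_replicate]; congr 1; omega
    rw [h8, ← FreeGroup.mul_mk, ← FreeGroup.mul_mk, ← FreeGroup.mul_mk, ← FreeGroup.mul_mk,
      ← FreeGroup.mul_mk]
    have hcancel : (FreeGroup.mk (List.replicate c (p.1, !p.2)) : F) *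
        FreeGroup.mk (List.replicate c p) = 1 := by
      have : (FreeGroup.mk (List.replicate c (p.1, !p.2)) : F) =
          (FreeGroup.mk (List.replicate c p))⁻¹ := by
        rw [FreeGroup.inv_mk]
        simp [FreeGroup.invRev]
      rw [this, inv_mul_cancel]
    rw [mul_assoc, mul_assoc, ← mul_assoc (FreeGroup.mk (List.replicate c (p.1, !p.2))), hcancel,
      one_mul]
  have hred : FreeGroup.IsReduced (W' ++ (List.replicate (8 - c) p ++ rep Z)) := by
    unfold FreeGroup.IsReduced
    rw [List.isChain_append]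
    refine ⟨?_, ?_, ?_⟩
    · rw [hW] at hredx
      exact List.IsChain.left_of_append hredx
    · have h8 : 8 - c = (7 - c) + 1 := by omega
      rw [h8]
      apply isChain_replicate_append
      have := isReduced_rep hredz
      have h2 : rep (p :: Z) = List.replicate 8 p ++ rep Z := by simp [rep]
      rw [h2, show (8 : ℕ) = 7 + 1 from rfl, List.replicate_succ', List.append_assoc] at this
      exact List.IsChain.right_of_append this
    · intro a ha b hb
      have h8 : 8 - c = (7 - c) + 1 := by omega
      rw [h8, List.replicate_succ, List.cons_append, List.head?_cons, Option.mem_def,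
        Option.some.injEq] at hb
      subst hb
      rw [Option.mem_def] at ha
      intro h1
      by_contra h2
      apply hlast
      rw [ha]
      congr 1
      ext1
      · exact h1
      · change a.2 = !p.2
        revert h2
        cases a.2 <;> cases p.2 <;> simp
  have h1 : (x * phi z).norm = W'.length + ((8 - c) + 8 * Z.length) := by
    rw [hx1, norm_mk_of hred, List.length_append, List.length_append, List.length_replicate,
      length_rep]
  have h2 : x.norm = W'.length + c := by
    rw [FreeGroup.norm, hW, List.length_append, List.length_replicate]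
  have h3 : z.norm = Z.length + 1 := by
    rw [FreeGroup.norm, hZ, List.length_cons]
  rw [h1, h2, h3]
  omega

lemma good_not_conj {x y z : F} (hx : Good x) (hy : Good y) (h : x = z * y * (phi z)⁻¹) :
    x = y := by
  by_cases hz : z = 1
  · subst hz
    simpa using h
  exfalso
  have h1 := norm_mul_phi hx hz
  have h2 := norm_mul_phi hy (inv_ne_one.2 hz)
  have h3 : x * phi z = z * y := by rw [h]; group
  have h4 : y * phi z⁻¹ = z⁻¹ * x := by rw [h, map_inv]; group
  rw [h3] at h1
  rw [h4] at h2
  have h5 := FreeGroup.norm_mul_le z y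
  have h6 := FreeGroup.norm_mul_le z⁻¹ x
  rw [FreeGroup.norm_inv_eq] at h2 h6
  have h7 : 0 < z.norm := Nat.pos_of_ne_zero fun h => hz (FreeGroup.norm_eq_zero.1 h)
  omega

/-! ### balls for the basis -/

lemma norm_le_of_mem_ball {g : F} {n : ℕ} (h : g ∈ ball X n) : g.norm ≤ n := by
  obtain ⟨l, h1, h2, rfl⟩ := h
  have : l.prod.norm ≤ l.length := by
    clear h1
    induction l with
    | nil => simp
    | cons a l ih =>
      rw [List.prod_cons, List.length_cons]
      have h3 := FreeGroup.norm_mul_le a l.prod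
      have h4 := ih fun x hx => h2 x (List.mem_cons_of_mem _ hx)
      have h5 : a.norm ≤ 1 := by
        rcases h2 a List.mem_cons_self with h | h
        · rcases h with h | h <;> rw [h] <;> simp
        · rw [← FreeGroup.norm_inv_eq]
          rcases h with h | h <;> rw [h] <;> simp
      omega
  omega

lemma of_mem_X (i : Fin 2) : (FreeGroup.of i : F) ∈ X := by
  fin_cases i
  · exact Or.inl rfl
  · exact Or.inr rfl

lemma mem_ball_of_norm_le {g : F} {n : ℕ} (h : g.norm ≤ n) : g ∈ ball X n := by
  refine ⟨g.toWord.map fun p => cond p.2 (FreeGroup.of p.1) (FreeGroup.of p.1)⁻¹, ?_, ?_, ?_⟩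
  · rw [List.length_map]; exact h
  · intro x hx
    rw [List.mem_map] at hx
    obtain ⟨⟨i, b⟩, _, rfl⟩ := hx
    cases b
    · right
      simpa using of_mem_X i
    · left
      exact of_mem_X i
  · conv_rhs => rw [← FreeGroup.mk_toWord (x := g)]
    generalize g.toWord = L
    induction L with
    | nil => simp [← FreeGroup.one_eq_mk]
    | cons p L ih =>
      have h1 : (FreeGroup.mk (p :: L) : F) = FreeGroup.mk [p] * FreeGroup.mk L := by
        rw [FreeGroup.mul_mk]; rfl
      rw [h1, List.map_cons, List.prod_cons, ih]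
      congr 1
      obtain ⟨i, b⟩ := p
      cases b
      · simp [FreeGroup.of, FreeGroup.invRev]
      · rfl

lemma ball_X (n : ℕ) : ball X n = {g : F | g.norm ≤ n} :=
  Set.ext fun _ => ⟨norm_le_of_mem_ball, mem_ball_of_norm_le⟩

/-! ### counting in balls of the free group -/

lemma finite_ball {G : Type} [Group G] (S : Set G) (hS : S.Finite) (n : ℕ) :
    (ball S n).Finite := by
  have hT : (insert 1 (S ∪ S⁻¹)).Finite := (hS.union hS.inv).insert 1
  induction n with
  | zero =>
    refine (Set.finite_singleton (1 : G)).subset ?_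
    rintro g ⟨l, h1, _, rfl⟩
    rw [Nat.le_zero, List.length_eq_zero_iff] at h1
    simp [h1]
  | succ n ih =>
    refine (hT.image2 (fun x y : G => x * y) ih).subset ?_
    rintro g ⟨l, h1, h2, rfl⟩
    cases l with
    | nil => exact ⟨1, Set.mem_insert _ _, 1, ⟨[], by simp, by simp, by simp⟩, by simp⟩
    | cons x l =>
      refine ⟨x, Set.mem_insert_of_mem _ ?_, l.prod, ⟨l, by simpa using h1,
        fun y hy => h2 y (List.mem_cons_of_mem _ hy), rfl⟩, by simp⟩
      rcases h2 x List.mem_cons_self with h | h
      · exact Or.inl h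
      · exact Or.inr h

/-- The ball of radius `n` of the free group. -/
abbrev B (n : ℕ) : Set F := {g : F | g.norm ≤ n}

lemma X_finite : (X : Set F).Finite := by
  unfold X
  exact Set.toFinite _

lemma Y_finite : (Y : Set F).Finite := by
  unfold Y
  exact Set.toFinite _

lemma B_finite (n : ℕ) : (B n).Finite := by
  have := finite_ball X X_finite n
  rwa [ball_X] at this

/-- Extension on the left by a letter of type `i` without cancellation. -/
def ext (i : Fin 2) (u : F) : List Letter :=
  (i, match u.toWord.head? with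
    | some (j, b) => if j = i then b else true
    | none => true) :: u.toWord

lemma ext_reduced (i : Fin 2) (u : F) : FreeGroup.IsReduced (ext i u) := by
  have h : FreeGroup.IsReduced u.toWord := FreeGroup.isReduced_toWord
  unfold ext
  cases hL : u.toWord with
  | nil => simp [FreeGroup.IsReduced]
  | cons p L =>
    rw [hL] at h
    unfold FreeGroup.IsReduced at *
    rw [List.isChain_cons_cons]
    refine ⟨?_, h⟩
    obtain ⟨j, b⟩ := p
    intro hij
    simp at hij
    simp [hij]

lemma two_mul_B (n : ℕ) : 2 * (B n).ncard ≤ (B (n + 1)).ncard := by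
  classical
  have h1 : 2 * (B n).ncard = ((Set.univ : Set (Fin 2)) ×ˢ B n).ncard := by
    rw [Set.ncard_prod, Set.ncard_univ, Nat.card_eq_fintype_card, Fintype.card_fin]
  rw [h1]
  refine Set.ncard_le_ncard_of_injOn (fun q => (FreeGroup.mk (ext q.1 q.2) : F)) ?_ ?_
    (B_finite (n + 1))
  · rintro ⟨i, u⟩ ⟨_, hu⟩
    change (FreeGroup.mk (ext i u) : F).norm ≤ n + 1
    rw [norm_mk_of (ext_reduced i u)]
    change u.toWord.length + 1 ≤ n + 1
    have : u.norm ≤ n := hu
    rw [FreeGroup.norm] at this
    omega
  · rintro ⟨i, u⟩ _ ⟨j, v⟩ _ h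
    have h2 : ext i u = ext j v := by
      have := congrArg FreeGroup.toWord h
      simpa only [toWord_mk_of (ext_reduced i u), toWord_mk_of (ext_reduced j v)] using this
    unfold ext at h2
    rw [List.cons.injEq] at h2
    have h3 := FreeGroup.toWord_injective h2.2
    have h4 : i = j := by
      have := h2.1
      rw [Prod.mk.injEq] at this
      exact this.1
    rw [h3, h4]

lemma eight_mul_B (n : ℕ) : 8 * (B n).ncard ≤ (B (n + 3)).ncard := by
  have h1 := two_mul_B n
  have h2 : 2 * (B (n + 1)).ncard ≤ (B (n + 2)).ncard := two_mul_B (n + 1)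
  have h3 : 2 * (B (n + 2)).ncard ≤ (B (n + 3)).ncard := two_mul_B (n + 2)
  omega

lemma bad_card (n : ℕ) : 8 * {g : F | g.norm ≤ n ∧ ¬ Good g}.ncard ≤ (B n).ncard := by
  classical
  by_cases hn : n < 3
  · have : {g : F | g.norm ≤ n ∧ ¬ Good g} = ∅ := by
      rw [Set.eq_empty_iff_forall_notMem]
      rintro g ⟨h1, h2⟩
      unfold Good at h2
      push Not at h2
      obtain ⟨q, hq⟩ := h2
      have := hq.length_le
      rw [List.length_replicate] at this
      rw [FreeGroup.norm] at h1
      omega
    rw [this]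
    simp
  · obtain ⟨m, rfl⟩ : ∃ m, n = m + 3 := ⟨n - 3, by omega⟩
    refine le_trans (Nat.mul_le_mul_left 8 ?_) (eight_mul_B m)
    refine Set.ncard_le_ncard_of_injOn
      (fun g => (FreeGroup.mk (g.toWord.take (g.toWord.length - 3)) : F)) ?_ ?_ (B_finite m)
    · rintro g ⟨h1, _⟩
      change (FreeGroup.mk (g.toWord.take (g.toWord.length - 3)) : F).norm ≤ m
      refine le_trans FreeGroup.norm_mk_le ?_
      rw [List.length_take]
      rw [FreeGroup.norm] at h1
      omega
    · have key : ∀ g : F, ¬ Good g → ∃ (L : List Letter) (q : Letter),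
          g.toWord = L ++ [q] ++ [q, q, q] ∧
          g.toWord.take (g.toWord.length - 3) = L ++ [q] ∧
          FreeGroup.IsReduced (L ++ [q]) := by
        intro g hg
        unfold Good at hg
        push Not at hg
        obtain ⟨q, L, hq⟩ := hg
        have hq' : g.toWord = L ++ [q] ++ [q, q, q] := by
          rw [← hq]; simp [List.replicate]
        refine ⟨L, q, hq', ?_, ?_⟩
        · rw [hq']
          have : (L ++ [q] ++ [q, q, q]).length - 3 = (L ++ [q]).length := by simp
          rw [this, List.take_left]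
        · have hr : FreeGroup.IsReduced g.toWord := FreeGroup.isReduced_toWord
          rw [hq'] at hr
          exact List.IsChain.left_of_append hr
      rintro g ⟨_, hg⟩ g' ⟨_, hg'⟩ h
      obtain ⟨L, q, h1, h2, h3⟩ := key g hg
      obtain ⟨L', q', h1', h2', h3'⟩ := key g' hg'
      simp only [h2, h2'] at h
      have h4 := congrArg FreeGroup.toWord h
      rw [toWord_mk_of h3, toWord_mk_of h3'] at h4
      have h5 := List.append_inj' h4 rfl
      have h6 : q = q' := by simpa using h5.2
      apply FreeGroup.toWord_injective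
      rw [h1, h1', h5.1, h6]

/-! ### the two bounds -/

lemma lower (n : ℕ) : 7 * (ball X n).ncard ≤ 8 * (classes phi X n).ncard := by
  have h1 := bad_card n
  have h2 : {g : F | g.norm ≤ n ∧ Good g}.ncard ≤ (classes phi X n).ncard := by
    refine Set.ncard_le_ncard_of_injOn (fun g => twistedClass phi g) ?_ ?_
      ((finite_ball X X_finite n).image _)
    · rintro g ⟨h, _⟩
      exact ⟨g, mem_ball_of_norm_le h, rfl⟩
    · rintro g ⟨_, hg⟩ g' ⟨_, hg'⟩ h
      have : g ∈ twistedClass phi g := ⟨1, by simp⟩
      rw [show twistedClass phi g = twistedClass phi g' from h] at this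
      obtain ⟨z, hz⟩ := this
      exact good_not_conj hg hg' hz
  have h3 : (B n).ncard = {g : F | g.norm ≤ n ∧ Good g}.ncard +
      {g : F | g.norm ≤ n ∧ ¬ Good g}.ncard := by
    rw [← Set.ncard_union_eq ?_ ((B_finite n).subset fun g hg => hg.1)
      ((B_finite n).subset fun g hg => hg.1)]
    · congr 1
      ext g
      simp only [Set.mem_ofPred_eq, Set.mem_union]
      tauto
    · rw [Set.disjoint_left]
      rintro g ⟨_, h⟩ ⟨_, h'⟩
      exact h' h
  rw [ball_X]
  change 7 * (B n).ncard ≤ _
  omega

/-- The first generator. -/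
abbrev a : F := FreeGroup.of 0

lemma ball_mono {G : Type} [Group G] (S : Set G) {m n : ℕ} (h : m ≤ n) : ball S m ⊆ ball S n := by
  rintro g ⟨l, h1, h2, h3⟩
  exact ⟨l, h1.trans h, h2, h3⟩

lemma mul_right_mem {G : Type} [Group G] {S : Set G} {n : ℕ} {g x : G} (hg : g ∈ ball S n)
    (hx : x ∈ S ∨ x⁻¹ ∈ S) : g * x ∈ ball S (n + 1) := by
  obtain ⟨l, h1, h2, rfl⟩ := hg
  refine ⟨l ++ [x], by simpa using h1, ?_, by simp⟩
  intro y hy
  rw [List.mem_append, List.mem_singleton] at hy
  rcases hy with hy | rfl
  · exact h2 y hy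
  · exact hx

lemma mul_left_mem {G : Type} [Group G] {S : Set G} {n : ℕ} {g x : G} (hg : g ∈ ball S n)
    (hx : x ∈ S ∨ x⁻¹ ∈ S) : x * g ∈ ball S (n + 1) := by
  obtain ⟨l, h1, h2, rfl⟩ := hg
  refine ⟨x :: l, by simpa using h1, ?_, by simp⟩
  intro y hy
  rw [List.mem_cons] at hy
  rcases hy with rfl | hy
  · exact hx
  · exact h2 y hy

/-- The exponent sum of the first generator. -/
def expo : F →* Multiplicative ℤ :=
  FreeGroup.lift fun i => if i = 0 then Multiplicative.ofAdd 1 else 1

lemma a_pow_conj {y : F} {k : ℕ} (h : a ^ k * y = y * (a ^ 8) ^ k) : k = 0 := by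
  have h1 := congrArg expo h
  rw [map_mul, map_mul, mul_comm (expo y), mul_left_inj, map_pow, map_pow, map_pow] at h1
  have h2 : expo a = Multiplicative.ofAdd 1 := by simp [expo]
  rw [h2, ← ofAdd_nsmul, ← ofAdd_nsmul, ← ofAdd_nsmul] at h1
  have h3 := Multiplicative.ofAdd.injective h1
  simp at h3
  omega

lemma phi_a : phi a = a ^ 8 := by simp [phi]

/-- The elements `u a ^ 8` with `u` in the ball of radius `n`. -/
def E (n : ℕ) : Set F := (fun u => u * a ^ 8) '' ball Y n

lemma E_subset (n : ℕ) : E n ⊆ ball Y (n + 1) := by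
  rintro _ ⟨u, hu, rfl⟩
  exact mul_right_mem hu (Or.inl (Or.inr (Or.inr rfl)))

lemma exists_rep (n : ℕ) (y : F) (hy : y ∈ ball Y (n + 1)) :
    ∃ y' ∈ ball Y (n + 1) \ E n, twistedClass phi y' = twistedClass phi y := by
  by_contra hcon
  push Not at hcon
  have h1 : ∀ k : ℕ, a ^ k * y * ((a ^ 8) ^ k)⁻¹ ∈ E n := by
    intro k
    have hcl : ∀ k : ℕ, twistedClass phi (a ^ k * y * ((a ^ 8) ^ k)⁻¹) = twistedClass phi y := by
      intro k
      ext x
      constructor
      · rintro ⟨z, rfl⟩
        refine ⟨z * a ^ k, ?_⟩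
        rw [map_mul, map_pow, phi_a]
        group
      · rintro ⟨z, rfl⟩
        refine ⟨z * (a ^ k)⁻¹, ?_⟩
        rw [map_mul, map_inv, map_pow, phi_a]
        group
    induction k with
    | zero =>
      by_contra h
      exact hcon y ⟨hy, by simpa using h⟩ rfl
    | succ k ih =>
      obtain ⟨u, hu, hu'⟩ := ih
      by_contra h
      refine hcon _ ⟨?_, h⟩ (hcl (k + 1))
      have : a ^ (k + 1) * y * ((a ^ 8) ^ (k + 1))⁻¹ = a * u := by
        have h2 : u = a ^ k * y * ((a ^ 8) ^ k)⁻¹ * (a ^ 8)⁻¹ := by
          rw [← hu']; group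
        rw [h2]
        group
      rw [this]
      exact mul_left_mem hu (Or.inl (Or.inl rfl))
  have hfin : (E n).Finite := (finite_ball Y Y_finite n).image _
  obtain ⟨k, -, l, -, hkl, heq⟩ := Set.infinite_univ.exists_ne_map_eq_of_mapsTo
    (f := fun k : ℕ => a ^ k * y * ((a ^ 8) ^ k)⁻¹) (fun k _ => h1 k) hfin
  have main : ∀ k d : ℕ, a ^ k * y * ((a ^ 8) ^ k)⁻¹ = a ^ (k + d) * y * ((a ^ 8) ^ (k + d))⁻¹ →
      d = 0 := by
    intro k d h
    apply a_pow_conj (y := y)
    have h2 : a ^ (k + d) * y * ((a ^ 8) ^ (k + d))⁻¹ =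
        a ^ k * (a ^ d * y * ((a ^ 8) ^ d)⁻¹) * ((a ^ 8) ^ k)⁻¹ := by
      rw [pow_add, add_comm k d, pow_add]
      group
    rw [h2, mul_left_inj, mul_right_inj] at h
    rw [eq_mul_inv_iff_mul_eq] at h
    exact h.symm
  rcases lt_or_gt_of_ne hkl with h | h
  · obtain ⟨d, rfl⟩ := Nat.exists_eq_add_of_lt h
    have := main k (d + 1) (by simpa [add_assoc] using heq)
    omega
  · obtain ⟨d, rfl⟩ := Nat.exists_eq_add_of_lt h
    have := main l (d + 1) (by simpa [add_assoc] using heq.symm)
    omega

lemma ball_Y_succ (n : ℕ) : (ball Y (n + 1)).ncard ≤ 7 * (ball Y n).ncard := by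
  classical
  let S : Finset F := [1, FreeGroup.of 0, FreeGroup.of 1, FreeGroup.of 0 ^ 8, (FreeGroup.of 0)⁻¹,
    (FreeGroup.of 1)⁻¹, (FreeGroup.of 0 ^ 8)⁻¹].toFinset
  have hS : S.card ≤ 7 := List.toFinset_card_le _
  have h1 : ball Y (n + 1) ⊆ (fun q : F × F => q.1 * q.2) '' ((S : Set F) ×ˢ ball Y n) := by
    rintro g ⟨l, h1, h2, rfl⟩
    cases l with
    | nil => exact ⟨(1, 1), ⟨by simp [S], ⟨[], by simp, by simp, by simp⟩⟩, by simp⟩
    | cons x l =>
      refine ⟨(x, l.prod), ⟨?_, ⟨l, by simpa using h1,
        fun y hy => h2 y (List.mem_cons_of_mem _ hy), rfl⟩⟩, by simp⟩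
      have h3 := h2 x List.mem_cons_self
      simp only [Y, Set.mem_insert_iff, Set.mem_singleton_iff] at h3
      simp only [S, Finset.mem_coe, List.mem_toFinset, List.mem_cons]
      rcases h3 with (h | h | h) | (h | h | h)
      · simp [h]
      · simp [h]
      · simp [h]
      · rw [inv_eq_iff_eq_inv] at h; simp [h]
      · rw [inv_eq_iff_eq_inv] at h; simp [h]
      · rw [inv_eq_iff_eq_inv] at h; simp [h]
  have hfin : ((S : Set F) ×ˢ ball Y n).Finite := S.finite_toSet.prod (finite_ball Y Y_finite n)
  calc (ball Y (n + 1)).ncard ≤ _ := Set.ncard_le_ncard h1 (hfin.image _)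
    _ ≤ ((S : Set F) ×ˢ ball Y n).ncard := Set.ncard_image_le hfin
    _ = S.card * (ball Y n).ncard := by rw [Set.ncard_prod, Set.ncard_coe_finset]
    _ ≤ 7 * (ball Y n).ncard := Nat.mul_le_mul_right _ hS

lemma upper (n : ℕ) : 7 * (classes phi Y (n + 1)).ncard ≤ 6 * (ball Y (n + 1)).ncard := by
  have h1 : classes phi Y (n + 1) ⊆ twistedClass phi '' (ball Y (n + 1) \ E n) := by
    rintro _ ⟨y, hy, rfl⟩
    obtain ⟨y', hy', h⟩ := exists_rep n y hy
    exact ⟨y', hy', h⟩
  have hfin : (ball Y (n + 1)).Finite := finite_ball Y Y_finite _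
  have h2 : (classes phi Y (n + 1)).ncard ≤ (ball Y (n + 1) \ E n).ncard :=
    (Set.ncard_le_ncard h1 ((hfin.subset Set.sdiff_subset).image _)).trans
      (Set.ncard_image_le (hfin.subset Set.sdiff_subset))
  have h3 : (E n).ncard = (ball Y n).ncard :=
    Set.ncard_image_of_injective _ (mul_left_injective _)
  have h4 := Set.ncard_sdiff_add_ncard_of_subset (E_subset n) hfin
  have h5 := ball_Y_succ n
  omega

lemma ball_pos {G : Type} [Group G] (S : Set G) (hS : S.Finite) (n : ℕ) :
    0 < (ball S n).ncard := by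
  rw [Set.ncard_pos (finite_ball S hS n)]
  exact ⟨1, [], by simp, by simp, by simp⟩

lemma ratio_le_one {G : Type} [Group G] (S : Set G) (hS : S.Finite) (φ : G →* G) (n : ℕ) :
    ((classes φ S n).ncard : ℝ) / ((ball S n).ncard : ℝ) ≤ 1 := by
  have h := ball_pos S hS n
  rw [div_le_one (by exact_mod_cast h)]
  exact_mod_cast Set.ncard_image_le (finite_ball S hS n)

/-- The twisted conjugacy ratio depends on the generating set: for the endomorphism of the free
group on `a, b` that sends `a` to `a ^ 8` and `b` to `b ^ 8`, it is at least `7 / 8` with respect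
to `{a, b}` and at most `6 / 7` with respect to `{a, b, a ^ 8}`. -/
theorem result :
    X.Finite ∧ Y.Finite ∧ Subgroup.closure X = ⊤ ∧ Subgroup.closure Y = ⊤ ∧
      7 / 8 ≤ tcr X phi ∧ tcr Y phi ≤ 6 / 7 ∧ tcr X phi ≠ tcr Y phi := by
  have hX : Subgroup.closure X = ⊤ := by
    rw [← FreeGroup.closure_range_of (Fin 2)]
    congr 1
    ext x
    simp [X, Fin.exists_fin_two, eq_comm]
  have hY : Subgroup.closure Y = ⊤ := by
    rw [eq_top_iff, ← hX]
    refine Subgroup.closure_mono ?_
    rintro x (h | h)
    · exact Or.inl h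
    · exact Or.inr (Or.inl h)
  have h1 : 7 / 8 ≤ tcr X phi := by
    refine le_limsup_of_frequently_le (Frequently.of_forall fun n => ?_) ?_
    · have h := ball_pos X X_finite n
      rw [le_div_iff₀ (by exact_mod_cast h)]
      have h2 : (7 : ℝ) * (ball X n).ncard ≤ 8 * (classes phi X n).ncard := by
        exact_mod_cast lower n
      linarith
    · exact isBoundedUnder_of ⟨1, fun n => ratio_le_one X X_finite phi n⟩
  have h2 : tcr Y phi ≤ 6 / 7 := by
    refine limsup_le_of_le ?_ ?_
    · refine isCoboundedUnder_le_of_le atTop (x := 0) fun n => ?_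
      positivity
    · filter_upwards [eventually_ge_atTop 1] with n hn
      obtain ⟨m, rfl⟩ : ∃ m, n = m + 1 := ⟨n - 1, by omega⟩
      have h := ball_pos Y Y_finite (m + 1)
      rw [div_le_iff₀ (by exact_mod_cast h)]
      have h2 : (7 : ℝ) * (classes phi Y (m + 1)).ncard ≤ 6 * (ball Y (m + 1)).ncard := by
        exact_mod_cast upper m
      linarith
  refine ⟨X_finite, Y_finite, hX, hY, h1, h2, ?_⟩
  intro h
  rw [h] at h1
  norm_num at h1 h2
  linarith

end Pool.Agent.Results.MP_91bf1e_al.RatioDepends
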